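import Pool.Agent.H85.BC.Basic

/-!
# Bicommutant-good II₁ factors: corners of minimal projections
-/

set_option autoImplicit false

open scoped InnerProductSpace Topology

namespace Pool.Agent.H39.BC

open Pool.Agent.H85.BC

variable {H : Type} [NormedAddCommGroup H] [InnerProductSpace ℂ H] [CompleteSpace H]

theorem scal_sa (hSP : T_SP H) (M : VonNeumannAlgebra H) {f : H →L[ℂ] H} (hf : f ∈ M)
    (hp : IsStarProjection f)
    (hmin : ∀ e ∈ M, IsStarProjection e → f * e = e → e = 0 ∨ e = f) {a : H →L[ℂ] H}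
    (ha : a ∈ M) (hsa : IsSelfAdjoint a) (hfa : f * a = a) (haf : a * f = a) :
    ∃ c : ℝ, a = (c : ℂ) • f := by
  have hff : f * f = f := hp.isIdempotentElem.eq
  have hfs : star f = f := hp.isSelfAdjoint.star_eq
  have key : ∀ s : ℝ, (∀ ζ : H, s * ‖f ζ‖ ^ 2 ≤ (inner ℂ (f ζ) (a (f ζ)) : ℂ).re) ∨
      (∀ ζ : H, (inner ℂ (f ζ) (a (f ζ)) : ℂ).re ≤ s * ‖f ζ‖ ^ 2) := by
    intro s
    obtain ⟨E, hE, hEp, hEc, h1, h2⟩ := hSP M a ha hsa s
    have hEf : f * E = E * f := hEc f (by rw [hfa, haf])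
    have hEE : E * E = E := hEp.isIdempotentElem.eq
    have hEs : star E = E := hEp.isSelfAdjoint.star_eq
    have hproj : IsStarProjection (E * f) := by
      refine ⟨?_, ?_⟩
      · show E * f * (E * f) = E * f
        calc E * f * (E * f) = E * (f * E) * f := by simp only [mul_assoc]
          _ = E * (E * f) * f := by rw [hEf]
          _ = (E * E) * (f * f) := by simp only [mul_assoc]
          _ = E * f := by rw [hEE, hff]
      · show star (E * f) = E * f
        rw [star_mul, hfs, hEs, hEf]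
    have hle : f * (E * f) = E * f := by
      rw [← mul_assoc, hEf, mul_assoc, hff]
    rcases hmin (E * f) (mul_mem hE hf) hproj hle with h0 | h0
    · right
      intro ζ
      apply h2
      have := congrArg (fun t : H →L[ℂ] H => t ζ) h0
      exact this
    · left
      intro ζ
      apply h1
      have := congrArg (fun t : H →L[ℂ] H => t ζ) h0
      exact this
  have hall : ∃ c : ℝ, ∀ ζ : H, (inner ℂ (f ζ) (a (f ζ)) : ℂ).re = c * ‖f ζ‖ ^ 2 := by
    by_cases h0 : ∃ ζ₀ : H, f ζ₀ ≠ 0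
    · obtain ⟨ζ₀, hζ₀⟩ := h0
      have hn0 : 0 < ‖f ζ₀‖ ^ 2 := by
        have := norm_pos_iff.2 hζ₀
        positivity
      refine ⟨(inner ℂ (f ζ₀) (a (f ζ₀)) : ℂ).re / ‖f ζ₀‖ ^ 2, fun ζ => ?_⟩
      by_cases hz : f ζ = 0
      · rw [hz]
        simp
      · have hn : 0 < ‖f ζ‖ ^ 2 := by
          have := norm_pos_iff.2 hz
          positivity
        set A := (inner ℂ (f ζ₀) (a (f ζ₀)) : ℂ).re with hA
        set B := (inner ℂ (f ζ) (a (f ζ)) : ℂ).re with hB
        rcases lt_trichotomy (A / ‖f ζ₀‖ ^ 2) (B / ‖f ζ‖ ^ 2) with hlt | heq | hgt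
        · exfalso
          obtain ⟨s, hs1, hs2⟩ := exists_between hlt
          rw [div_lt_iff₀ hn0] at hs1
          rw [lt_div_iff₀ hn] at hs2
          rcases key s with h3 | h3
          · linarith [h3 ζ₀]
          · linarith [h3 ζ]
        · rw [heq, div_mul_cancel₀ _ hn.ne']
        · exfalso
          obtain ⟨s, hs1, hs2⟩ := exists_between hgt
          rw [div_lt_iff₀ hn] at hs1
          rw [lt_div_iff₀ hn0] at hs2
          rcases key s with h3 | h3
          · linarith [h3 ζ]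
          · linarith [h3 ζ₀]
    · push Not at h0
      refine ⟨0, fun ζ => ?_⟩
      rw [h0 ζ]
      simp
  obtain ⟨c, hc⟩ := hall
  refine ⟨c, ?_⟩
  have hb : ((a - (c : ℂ) • f : H →L[ℂ] H) : H →ₗ[ℂ] H) = 0 := by
    rw [← inner_map_self_eq_zero]
    intro ζ
    have h1 : (a - (c : ℂ) • f) ζ = f ((a - (c : ℂ) • f) (f ζ)) := by
      have h2 : a - (c : ℂ) • f = f * ((a - (c : ℂ) • f) * f) := by
        rw [sub_mul, mul_sub, haf, hfa, smul_mul_assoc, hff, mul_smul_comm, hff]
      exact congrArg (fun t : H →L[ℂ] H => t ζ) h2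
    have h3 : (inner ℂ ((a - (c : ℂ) • f) ζ) ζ : ℂ) =
        inner ℂ (a (f ζ)) (f ζ) - c * ((‖f ζ‖ ^ 2 : ℝ) : ℂ) := by
      rw [h1]
      have h4 : (inner ℂ (f ((a - (c : ℂ) • f) (f ζ))) ζ : ℂ) =
          inner ℂ ((a - (c : ℂ) • f) (f ζ)) (f ζ) := by
        have h10 := inner_star_left f ((a - (c : ℂ) • f) (f ζ)) ζ
        rwa [hfs] at h10
      rw [h4]
      have h5 : (a - (c : ℂ) • f) (f ζ) = a (f ζ) - (c : ℂ) • f ζ := by
        have h6 : f (f ζ) = f ζ := congrArg (fun t : H →L[ℂ] H => t ζ) hff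
        show a (f ζ) - (c : ℂ) • f (f ζ) = _
        rw [h6]
      rw [h5, inner_sub_left, inner_smul_left, Complex.conj_ofReal,
        inner_self_eq_norm_sq_to_K]
      push_cast
      rfl
    show (inner ℂ ((a - (c : ℂ) • f) ζ) ζ : ℂ) = 0
    rw [h3]
    have h7 : (inner ℂ (a (f ζ)) (f ζ) : ℂ) = inner ℂ (f ζ) (a (f ζ)) := by
      conv_lhs => rw [← hsa.star_eq]
      rw [inner_star_left]
    have h8 : (starRingEnd ℂ) (inner ℂ (f ζ) (a (f ζ)) : ℂ) = inner ℂ (f ζ) (a (f ζ)) := by
      rw [inner_conj_symm]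
      exact h7
    have h9 : (inner ℂ (f ζ) (a (f ζ)) : ℂ) =
        (((inner ℂ (f ζ) (a (f ζ)) : ℂ).re : ℝ) : ℂ) :=
      (Complex.conj_eq_iff_re.1 h8).symm
    rw [h7, h9, hc ζ]
    push_cast
    ring
  have hb' : a - (c : ℂ) • f = 0 := by
    ext ζ
    have := congrArg (fun t : H →ₗ[ℂ] H => t ζ) hb
    exact this
  exact sub_eq_zero.1 hb'

theorem pf_SCAL (hSP : T_SP H) : T_SCAL H := by
  intro M f hf hp hmin x hx
  have hff : f * f = f := hp.isIdempotentElem.eq
  have hfs : star f = f := hp.isSelfAdjoint.star_eq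
  set z := f * x * f with hz
  have hzM : z ∈ M := mul_mem (mul_mem hf hx) hf
  have hfz : f * z = z := by rw [hz, ← mul_assoc, ← mul_assoc, hff]
  have hzf : z * f = z := by rw [hz, mul_assoc, hff]
  have hfz' : f * star z = star z := by
    have := congrArg star hzf
    rwa [star_mul, hfs] at this
  have hzf' : star z * f = star z := by
    have := congrArg star hfz
    rwa [star_mul, hfs] at this
  have h1 : ∃ c : ℝ, z + star z = (c : ℂ) • f := by
    refine scal_sa hSP M hf hp hmin (add_mem hzM (star_mem hzM)) ?_ ?_ ?_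
    · show star (z + star z) = z + star z
      rw [star_add, star_star, add_comm]
    · rw [mul_add, hfz, hfz']
    · rw [add_mul, hzf, hzf']
  have h2 : ∃ c : ℝ, Complex.I • (z - star z) = (c : ℂ) • f := by
    refine scal_sa hSP M hf hp hmin (smul_mem' M _ (sub_mem hzM (star_mem hzM))) ?_ ?_ ?_
    · show star (Complex.I • (z - star z)) = Complex.I • (z - star z)
      rw [star_smul, star_sub, star_star]
      have : star Complex.I = -Complex.I := Complex.conj_I
      rw [this, neg_smul, ← smul_neg, neg_sub]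
    · rw [mul_smul_comm, mul_sub, hfz, hfz']
    · rw [smul_mul_assoc, sub_mul, hzf, hzf']
  obtain ⟨c, hc⟩ := h1
  obtain ⟨d, hd⟩ := h2
  refine ⟨(c : ℂ) / 2 - Complex.I * d / 2, ?_⟩
  have h3 : z - star z = (-Complex.I * d) • f := by
    have h4 := congrArg (fun t : H →L[ℂ] H => (-Complex.I) • t) hd
    simp only [smul_smul] at h4
    have h5 : -Complex.I * Complex.I = 1 := by
      rw [neg_mul, Complex.I_mul_I, neg_neg]
    rw [h5, one_smul] at h4
    exact h4
  have h6 : z = (1 / 2 : ℂ) • ((z + star z) + (z - star z)) := by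
    module
  rw [h6, hc, h3, ← add_smul, smul_smul]
  congr 1
  ring

end Pool.Agent.H39.BC
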